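import Mathlib

/-! Job 4500 (TXW-RIESZ), asked for by helper949 (MP_3283e1_nt): windows and the Riesz mean of
order one. -/

set_option autoImplicit false

open MeasureTheory Set Filter Topology

namespace Pool.Agent.TH720.TXW

theorem t_riesz_window {S : ℝ → ℝ} (hS : ∀ U : ℝ, 0 < U → IntervalIntegrable S volume 0 U) {m κ : ℝ}
    (h : Tendsto (fun U : ℝ => (∫ v in (0 : ℝ)..U, S v) / U - m * Real.log U) atTop (𝓝 κ))
    {δ : ℝ} (hδ : 0 < δ) (hδ1 : δ < 1) {A : ℝ} (hA : A < κ + m) :
    ∀ᶠ U : ℝ in atTop, ∃ v : ℝ, (1 - δ) * U ≤ v ∧ v ≤ U ∧ A + m * Real.log v < S v := by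
  set q : ℝ := 1 - δ with hq
  have hq0 : 0 < q := by rw [hq]; linarith
  have hq1 : q < 1 := by rw [hq]; linarith
  set E : ℝ → ℝ := fun U => (∫ v in (0 : ℝ)..U, S v) / U - m * Real.log U - κ with hE
  have hE0 : Tendsto E atTop (𝓝 0) := by
    have := h.sub_const κ
    simpa [hE] using this
  have hqU : Tendsto (fun U : ℝ => q * U) atTop atTop :=
    tendsto_id.const_mul_atTop hq0
  have hE1 : Tendsto (fun U => E (q * U)) atTop (𝓝 0) := hE0.comp hqU
  have hD : Tendsto (fun U => E U - q * E (q * U)) atTop (𝓝 0) := by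
    have := hE0.sub (hE1.const_mul q)
    simpa using this
  have hpos : 0 < δ * (κ + m - A) := mul_pos hδ (by linarith)
  have hev : ∀ᶠ U : ℝ in atTop, -(δ * (κ + m - A)) < E U - q * E (q * U) :=
    hD.eventually (lt_mem_nhds (by linarith))
  filter_upwards [hev, eventually_gt_atTop (0 : ℝ)] with U hU hU0
  by_contra hcon
  push Not at hcon
  have hqU0 : 0 < q * U := mul_pos hq0 hU0
  have hle : q * U ≤ U := by nlinarith
  have hI1 := hS U hU0
  have hI2 := hS (q * U) hqU0
  have hI3 : IntervalIntegrable S volume (q * U) U := hI2.symm.trans hI1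
  have hIlog : IntervalIntegrable (fun v : ℝ => A + m * Real.log v) volume (q * U) U := by
    apply IntervalIntegrable.add
    · exact intervalIntegrable_const
    · exact (intervalIntegral.intervalIntegrable_log').const_mul m
  have hmono : (∫ v in (q * U)..U, S v) ≤ ∫ v in (q * U)..U, (A + m * Real.log v) :=
    intervalIntegral.integral_mono_on hle hI3 hIlog (fun v hv => hcon v hv.1 hv.2)
  have hsub : (∫ v in (q * U)..U, S v) = (∫ v in (0 : ℝ)..U, S v) - ∫ v in (0 : ℝ)..(q * U), S v :=
    (intervalIntegral.integral_interval_sub_left hI1 hI2).symm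
  have hint : (∫ v in (q * U)..U, (A + m * Real.log v)) =
      A * (U - q * U) + m * (U * Real.log U - q * U * Real.log (q * U) - U + q * U) := by
    rw [intervalIntegral.integral_add intervalIntegrable_const
      ((intervalIntegral.intervalIntegrable_log').const_mul m),
      intervalIntegral.integral_const, intervalIntegral.integral_const_mul, integral_log]
    simp [smul_eq_mul]
    ring
  have hlog : Real.log (q * U) = Real.log q + Real.log U := Real.log_mul hq0.ne' hU0.ne'
  have e1 : (∫ v in (0 : ℝ)..U, S v) = U * (m * Real.log U + κ + E U) := by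
    simp only [hE]; field_simp; ring
  have e2 : (∫ v in (0 : ℝ)..(q * U), S v) =
      (q * U) * (m * (Real.log q + Real.log U) + κ + E (q * U)) := by
    simp only [hE]; rw [← hlog]; field_simp; ring
  rw [hsub, hint, e1, e2, hlog] at hmono
  have hfin : U * (δ * (κ + m - A) + (E U - q * E (q * U))) ≤ 0 := by
    have hδq : δ = 1 - q := by rw [hq]; ring
    rw [hδq]
    nlinarith [hmono]
  have : 0 < U * (δ * (κ + m - A) + (E U - q * E (q * U))) := mul_pos hU0 (by linarith)
  linarith

end Pool.Agent.TH720.TXW
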